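import Pool.Agent.Helper92.RECT.Goals1
import Pool.Agent.Helper28.Few.Macro

/-!
# Project RECT, packet RECT-WIN
-/

namespace Pool.Agent.Helper56.RECT

open Pool.Agent.Helper65.LinSpace Pool.Agent.Helper78.Mpc Pool.Agent.Helper28.Ram Finset
open Pool.Agent.Helper28.Few (mcf chs Absorb)
open Pool.Agent.Helper92.RECT

theorem mf {s : Finset ℕ} {p : ℕ → Prop} {inst : DecidablePred p} {a : ℕ}
    (h : a ∈ @Finset.filter ℕ p inst s) : a ∈ s ∧ p a := (@Finset.mem_filter _ p inst s a).1 h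

theorem win (hg : GRID_stmt) (hc : CMP_stmt) (hr : CRO_stmt) : WIN_stmt := by
  classical
  intro P hok hd Nw r x h J T hTc hrT hfin hfin' hfc hN hx hJ hr2 hT
  obtain ⟨o, ho, hcro⟩ := hr P.D r P.d (2 ^ h) Nw (Reg P)
    (fun t k => dig (2 ^ P.κ) (P.ce (P.X t).1) k) hd (fun t _ hG k hk => hG k hk)
  set Z := ((range r).filter fun t => (Nw t ∧ Reg P t) ∧
    ∃ k < P.D, (dig (2 ^ P.κ) (P.ce (P.X t).1) k + o) / P.d ≠
      (dig (2 ^ P.κ) (P.ce (P.X (t + 1)).1) k + o) / P.d).card with hZ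
  set R := ((range r).filter fun t => Reg P t ∧
    ∃ k < P.D, (dig (2 ^ P.κ) (P.ce (P.X t).1) k + o) / P.d ≠
      (dig (2 ^ P.κ) (P.ce (P.X (t + 1)).1) k + o) / P.d).card with hR
  have hxx : ((range r).filter fun t => Nw t ∧ Reg P t).card ≤ x :=
    (Finset.card_le_card fun i hi => by
      rw [mem_filter] at hi ⊢
      exact hi).trans hx
  have hQ := hok o ho
  have hcross : ∀ p p' : ℕ, (P.sh o).blk p ≠ (P.sh o).blk p' ↔
      ∃ k < P.D, (dig (2 ^ P.κ) p k + o) / P.d ≠ (dig (2 ^ P.κ) p' k + o) / P.d :=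
    hg.cross (P.sh o) hd ho
  obtain ⟨h1, h2, h3⟩ := hc (P.sh o) hQ (fun i => (Nw i ∧ Reg P i) ∨ ¬Reg P i) r hTc hrT hfin
    hfin' hfc (fun v i hvi hir hne hb => by
      by_cases hreg : Reg P i
      · exact Or.inl ⟨hN v i hvi hir hne (fun j hj1 hj2 he =>
          hb j hj1 hj2 (congrArg (P.sh o).blk he)) hreg, hreg⟩
      · exact Or.inr hreg)
  have hcrs : crs (P.sh o) r ≤ R + J := by
    unfold crs
    refine (Finset.card_le_card (t := ((range r).filter fun t => Reg P t ∧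
      ∃ k < P.D, (dig (2 ^ P.κ) (P.ce (P.X t).1) k + o) / P.d ≠
      (dig (2 ^ P.κ) (P.ce (P.X (t + 1)).1) k + o) / P.d) ∪
      ((range r).filter fun i => ¬Reg P i)) ?_).trans
      ((Finset.card_union_le _ _).trans (Nat.add_le_add_left (le_trans (Finset.card_le_card
        fun i hi => ?_) hJ) _))
    · intro i hi
      replace hi := mf hi
      rw [mem_union, mem_filter, mem_filter]
      by_cases hreg : Reg P i
      · exact Or.inl ⟨hi.1, hreg, (hcross _ _).1 hi.2⟩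
      · exact Or.inr ⟨hi.1, hreg⟩
    · rw [mem_filter] at hi ⊢
      exact hi
  have hncr : ncr (P.sh o) (fun i => (Nw i ∧ Reg P i) ∨ ¬Reg P i) r ≤ Z + J := by
    unfold ncr
    refine (Finset.card_le_card (t := ((range r).filter fun t => (Nw t ∧ Reg P t) ∧
      ∃ k < P.D, (dig (2 ^ P.κ) (P.ce (P.X t).1) k + o) / P.d ≠
      (dig (2 ^ P.κ) (P.ce (P.X (t + 1)).1) k + o) / P.d) ∪
      ((range r).filter fun i => ¬Reg P i)) ?_).trans
      ((Finset.card_union_le _ _).trans (Nat.add_le_add_left (le_trans (Finset.card_le_card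
        fun i hi => ?_) hJ) _))
    · intro i hi
      replace hi := mf hi
      rw [mem_union, mem_filter, mem_filter]
      obtain ⟨hi1, hi2 | hi2, hi3⟩ := hi
      · exact Or.inl ⟨hi1, hi2, (hcross _ _).1 hi3⟩
      · exact Or.inr ⟨hi1, hi2⟩
    · rw [mem_filter] at hi ⊢
      exact hi
  have hH : 0 < 2 ^ h := by positivity
  -- the number of macro steps
  have hRle : R / 2 ^ h * 2 ^ h ≤ R := Nat.div_mul_le_self _ _
  have hdz : P.d * (Z + R / 2 ^ h) ≤ P.D * (2 * x + 1) := by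
    have h4 : (P.d * (Z + R / 2 ^ h)) * 2 ^ h ≤ (P.D * (2 * x + 1)) * 2 ^ h := by
      calc (P.d * (Z + R / 2 ^ h)) * 2 ^ h
          = P.d * (2 ^ h * Z + R / 2 ^ h * 2 ^ h) := by ring
        _ ≤ P.d * (2 ^ h * Z + R) := Nat.mul_le_mul_left _ (Nat.add_le_add_left hRle _)
        _ ≤ P.D * (2 ^ h * ((range r).filter fun t => Nw t ∧ Reg P t).card + r) := hcro
        _ ≤ P.D * (2 ^ h * x + 2 ^ h * (x + 1)) :=
            Nat.mul_le_mul_left _ (Nat.add_le_add (Nat.mul_le_mul_left _ hxx) hr2)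
        _ = _ := by ring
    exact Nat.le_of_mul_le_mul_right h4 hH
  have hK : (R + J) / 2 ^ h ≤ R / 2 ^ h + J + 1 := by
    rw [Nat.div_le_iff_le_mul_add_pred hH]
    have h5 := Nat.lt_mul_div_succ R hH
    have h6 : J ≤ 2 ^ h * J := Nat.le_mul_of_pos_left _ hH
    have h7 : 2 ^ h * (R / 2 ^ h + J + 1) = 2 ^ h * (R / 2 ^ h + 1) + 2 ^ h * J := by ring
    omega
  have hKlt : R + J + 1 ≤ 2 ^ h * ((R + J) / 2 ^ h + 1) := by
    have := Nat.lt_mul_div_succ (R + J) hH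
    omega
  obtain ⟨K, hKd⟩ : ∃ K, K = (R + J) / 2 ^ h := ⟨_, rfl⟩
  obtain ⟨L, hLd⟩ : ∃ L, L = R / 2 ^ h := ⟨_, rfl⟩
  rw [← hKd, ← hLd] at hK
  rw [← hKd] at hKlt
  rw [← hLd] at hdz
  refine ⟨o, ho, Pool.Agent.Helper28.Few.macro_complete (acc := fun Q => Q = 1) h1
    (r := crs (P.sh o) r + 2) (x := Z + J + K + 1) h2 ?_ (Or.inl ?_) T ?_⟩
  · exact h3.trans (by omega)
  · have h8 : 2 ^ h * (K + 1) + 1 ≤ 2 ^ h * (Z + J + K + 1 + 1) := by
      have h9 : 2 ^ h * (Z + J + K + 1 + 1) =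
          2 ^ h * (K + 1) + 2 ^ h * (Z + J) + 2 ^ h := by ring
      omega
    omega
  · have h10 : P.d * (2 * (Z + J + K + 1) + 1) ≤ P.d * T := by
      calc P.d * (2 * (Z + J + K + 1) + 1)
          ≤ P.d * (2 * (Z + L) + (4 * J + 5)) := Nat.mul_le_mul_left _ (by omega)
        _ = 2 * (P.d * (Z + L)) + (4 * J + 5) * P.d := by ring
        _ ≤ 2 * (P.D * (2 * x + 1)) + (4 * J + 5) * P.d := by omega
        _ = 2 * P.D * (2 * x + 1) + (4 * J + 5) * P.d := by ring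
        _ ≤ _ := hT
    exact Nat.le_of_mul_le_mul_left h10 hd

end Pool.Agent.Helper56.RECT
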